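import Pool.Agent.Sch2.Count

set_option autoImplicit false

namespace Pool.Agent.Results.MP_aa5fad_nt.ClusterFamilies

open Pool.Agent.SchK Pool.Agent.Sch2

/-- `ε 0, ..., ε (p - 1)` is a word in the letters `0, ..., l` which contains the letter `l` and
whose sum is larger than `l` -/
def IsWord (l p : ℕ) (ε : ℕ → ℕ) : Prop :=
  (∀ t < p, ε t ≤ l) ∧ (∃ t < p, ε t = l) ∧ l < ∑ t ∈ Finset.range p, ε t

open Classical in
/-- Let `s, N ≥ 1`. For each word with `l + p = s` at least `(N / ((p + 1) * (l + 3))) ^ (s + 1)`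
integers `n < 2 ^ N` with exactly `p + 1 + ∑ ε t > s + 1` binary ones belong to its family, and
all the integers below `2 ^ N` in the union of these families, with at most
`2 ^ (32 * s ^ 2) * N ^ s` exceptions, satisfy `ℓ(n) = ⌊log₂ n⌋ + s` and
`ℓ(2 ^ n - 1) ≤ n - 1 + ℓ(n)`. -/
theorem result (s N : ℕ) (hs : 1 ≤ s) (hN : 1 ≤ N) :
    (∀ (l p : ℕ) (ε : ℕ → ℕ), l + p = s → IsWord l p ε →
      (N / ((p + 1) * (l + 3))) ^ (s + 1) ≤
        ((Finset.range (2 ^ N)).filter fun n => Fam l p ε n ∧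
          ones n = p + 1 + ∑ t ∈ Finset.range p, ε t).card) ∧
    ((Finset.range (2 ^ N)).filter fun n =>
      (∃ (l p : ℕ) (ε : ℕ → ℕ), l + p = s ∧ IsWord l p ε ∧ Fam l p ε n) ∧
      ¬ (len n = Nat.log 2 n + s ∧ len (2 ^ n - 1) ≤ n - 1 + len n)).card
        ≤ 2 ^ (32 * s ^ 2) * N ^ s := by
  refine ⟨fun l p ε h1 h2 => ?_, ?_⟩
  · rw [← h1]
    exact card_fam_ge l p N ε h2.1 h2.2.1
  · apply card_exc_le s N hs hN
    rintro n ⟨l, p, ε, h1, ⟨h2, ⟨t, ht, -⟩, -⟩, h3⟩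
    exact ⟨l, p, ε, h1, by omega, h2, h3⟩

end Pool.Agent.Results.MP_aa5fad_nt.ClusterFamilies
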