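import Pool.Agent.SchK.Main

set_option autoImplicit false

namespace Pool.Agent.Results.MP_aa5fad_nt.SparseAlmostAll

open Pool.Agent.SchK

/-- Of the `N.choose k` integers `n < 2 ^ N` with exactly `k` binary ones, all but at most
`2 ^ (32 k ^ 2) N ^ (k - 1)` satisfy `ℓ(n) = ⌊log₂ n⌋ + k - 1` and
`ℓ(2 ^ n - 1) ≤ n - 1 + ℓ(n)`. -/
theorem result (k N : ℕ) (hk : 1 ≤ k) (hN : 1 ≤ N) :
    ((Finset.range (2 ^ N)).filter fun n => ones n = k).card = N.choose k ∧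
    ((Finset.range (2 ^ N)).filter fun n => ones n = k ∧
      ¬ (len n = Nat.log 2 n + k - 1 ∧ len (2 ^ n - 1) ≤ n - 1 + len n)).card
        ≤ 2 ^ (32 * k ^ 2) * N ^ (k - 1) :=
  main k N hk hN

end Pool.Agent.Results.MP_aa5fad_nt.SparseAlmostAll
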