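import Pool.Agent.SchP.Main

set_option autoImplicit false

namespace Pool.Agent.Results.MP_aa5fad_nt.UpToSmallSteps

open Pool.Agent.SchK

/-- There is an absolute constant `C` such that for all `n ≥ 1`
`ℓ(2 ^ n - 1) ≤ n - 1 + ℓ(n) + C s ^ 3 (⌊log₂ s⌋ + 1)`, where `s = ℓ(n) - ⌊log₂ n⌋` is the number
of small steps. -/
theorem result : ∃ C : ℕ, ∀ n : ℕ, 1 ≤ n → len (2 ^ n - 1) ≤ n - 1 + len n +
    C * ((len n - Nat.log 2 n) ^ 3 * (Nat.log 2 (len n - Nat.log 2 n) + 1)) :=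
  Pool.Agent.SchP.main

end Pool.Agent.Results.MP_aa5fad_nt.UpToSmallSteps
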